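import Pool.Agent.N589.LL.Tasks

/-!
# LL/10: class number one for `GL_2` over `F_2(t)`
-/

open scoped WithZero Polynomial MatrixGroups Topology
open IsDedekindDomain RestrictedProduct

noncomputable section

namespace N589LL

namespace ClassAux

/-! ## Criterion for membership in `GL_2(O)` -/

section gl

variable {F : Type} [Field F] (v : Valuation F ℤᵐ⁰)

lemma mem_glInt_of {g : GL (Fin 2) F} (h : ∀ i j, v (g.val i j) ≤ 1) (hd : v g.val.det = 1) :
    g ∈ glInt v := by
  refine ⟨h, ?_⟩
  have e : g⁻¹.val = (g.val.det)⁻¹ • g.val.adjugate := by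
    rw [Matrix.coe_units_inv, Matrix.inv_def, Ring.inverse_eq_inv']
  intro i j
  rw [e, Matrix.smul_apply, smul_eq_mul, map_mul, map_inv₀, hd, inv_one, one_mul]
  rw [Matrix.adjugate_fin_two]
  fin_cases i <;> fin_cases j
  · simpa using h 1 1
  · simpa using h 0 1
  · simpa using h 1 0
  · simpa using h 0 0

lemma upr_mem {x : F} (hx : v x ≤ 1) : upr x ∈ glInt v := by
  apply mem_glInt_of
  · intro i j
    fin_cases i <;> fin_cases j <;> simp [upr, hx]
  · simp [upr, Matrix.det_fin_two]

lemma lwr_mem {x : F} (hx : v x ≤ 1) : lwr x ∈ glInt v := by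
  apply mem_glInt_of
  · intro i j
    fin_cases i <;> fin_cases j <;> simp [lwr, hx]
  · simp [lwr, Matrix.det_fin_two]

lemma wm_mem : wm ∈ glInt v := by
  apply mem_glInt_of
  · intro i j
    fin_cases i <;> fin_cases j <;> simp [wm]
  · simp [wm, Matrix.det_fin_two]

lemma dg_mem {a d : Fˣ} (ha : v a = 1) (hd : v d = 1) : dg a d ∈ glInt v := by
  apply mem_glInt_of
  · intro i j
    fin_cases i <;> fin_cases j <;> simp [dg, bor, ha, hd]
  · simp [dg, bor, Matrix.det_fin_two, ha, hd]

/-- Iwasawa decomposition. -/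
lemma iwasawa (h : GL (Fin 2) F) : ∃ k ∈ glInt v, (h * k).val 1 0 = 0 := by
  by_cases hc : h.val 1 0 = 0
  · exact ⟨1, one_mem _, by rw [mul_one]; exact hc⟩
  have hvc : v (h.val 1 0) ≠ 0 := by simpa using hc
  by_cases hle : v (h.val 1 0) ≤ v (h.val 1 1)
  · have hd : h.val 1 1 ≠ 0 := by
      intro h0
      rw [h0, map_zero] at hle
      exact hvc (le_antisymm hle zero_le)
    refine ⟨lwr (-(h.val 1 0 / h.val 1 1)), lwr_mem v ?_, ?_⟩
    · rw [Valuation.map_neg, map_div₀]
      have hvd : v (h.val 1 1) ≠ 0 := by simpa using hd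
      exact div_le_one_of_le₀ hle zero_le
    · rw [Units.val_mul, Matrix.mul_apply, Fin.sum_univ_two]
      simp only [lwr, Matrix.cons_val', Matrix.cons_val_zero, Matrix.cons_val_one,
        Matrix.cons_val_fin_one, Matrix.of_apply, mul_one, Fin.isValue]
      field_simp
      ring
  · push Not at hle
    refine ⟨wm * lwr (-(h.val 1 1 / h.val 1 0)), mul_mem (wm_mem v) (lwr_mem v ?_), ?_⟩
    · rw [Valuation.map_neg, map_div₀]
      exact div_le_one_of_le₀ hle.le zero_le
    · rw [Units.val_mul, Units.val_mul, Matrix.mul_apply, Fin.sum_univ_two]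
      simp only [lwr, wm, Matrix.mul_apply, Fin.sum_univ_two, Matrix.cons_val', Matrix.cons_val_zero, Matrix.cons_val_one,
        Matrix.cons_val_fin_one, Matrix.of_apply, mul_one, Fin.isValue]
      field_simp
      ring

end gl

/-! ## Approximation at one place -/

lemma exists_gen (v : HeightOneSpectrum A) : ∃ P : A, v.asIdeal = Ideal.span {P} ∧ Irreducible P := by
  obtain ⟨P, hP⟩ := IsPrincipalIdealRing.principal v.asIdeal
  have hP' : v.asIdeal = Ideal.span {P} := hP
  have hne : P ≠ 0 := by
    rintro rfl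
    apply v.ne_bot
    rw [hP']; simp
  refine ⟨P, hP', ?_⟩
  have hpr : (Ideal.span {P}).IsPrime := hP' ▸ v.isPrime
  exact ((Ideal.span_singleton_prime hne).1 hpr).irreducible

lemma pv_int (w : HeightOneSpectrum A) (a : A) : pv (some w) (algebraMap A K a) ≤ 1 :=
  w.valuation_le_one a

lemma pv_unit {w : HeightOneSpectrum A} {a : A} (h : a ∉ w.asIdeal) :
    pv (some w) (algebraMap A K a) = 1 := by
  refine le_antisymm (pv_int w a) ?_
  by_contra hlt
  push Not at hlt
  exact h ((w.valuation_lt_one_iff_mem a).1 hlt)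

lemma gen_not_mem {v w : HeightOneSpectrum A} (hvw : w ≠ v) {P : A} (hP : v.asIdeal = Ideal.span {P}) :
    P ∉ w.asIdeal := by
  intro hmem
  apply hvw
  have hle : v.asIdeal ≤ w.asIdeal := by
    rw [hP, Ideal.span_singleton_le_iff_mem]; exact hmem
  have := v.isMaximal.eq_of_le w.isPrime.ne_top hle
  exact HeightOneSpectrum.ext this.symm

/-- Partial fractions: every element of `K` is, up to an element integral at `v`, integral at all
other finite places. -/
lemma approxK (v : HeightOneSpectrum A) (x : K) : ∃ y : K, pv (some v) (x - y) ≤ 1 ∧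
    ∀ w : HeightOneSpectrum A, w ≠ v → pv (some w) y ≤ 1 := by
  obtain ⟨P, hP, hirr⟩ := exists_gen v
  obtain ⟨a, b, hb, hx⟩ := IsFractionRing.div_surjective (A := A) x
  have hb0 : b ≠ 0 := nonZeroDivisors.ne_zero hb
  have hfin : FiniteMultiplicity P b := FiniteMultiplicity.of_prime_left hirr.prime hb0
  obtain ⟨b', hb', hnd⟩ := hfin.exists_eq_pow_mul_and_not_dvd
  set k := multiplicity P b with hk
  have hcop : IsCoprime (P ^ k) b' := ((hirr.coprime_iff_not_dvd).2 hnd).pow_left
  obtain ⟨u, w, huw⟩ := hcop
  -- u * P^k + w * b' = 1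
  have hPK : algebraMap A K P ≠ 0 := by
    simpa using hirr.ne_zero
  have hb'0 : b' ≠ 0 := by
    rintro rfl
    exact hnd (dvd_zero _)
  have hb'K : algebraMap A K b' ≠ 0 := by
    simpa using hb'0
  refine ⟨algebraMap A K (a * w) / algebraMap A K P ^ k, ?_, ?_⟩
  · have e : x - algebraMap A K (a * w) / algebraMap A K P ^ k =
        algebraMap A K (a * u) / algebraMap A K b' := by
      rw [← hx, hb', map_mul, map_pow]
      have h1 : algebraMap A K u * algebraMap A K P ^ k + algebraMap A K w * algebraMap A K b' = 1 := by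
        rw [← map_pow, ← map_mul, ← map_mul, ← map_add, huw, map_one]
      rw [map_mul, map_mul]
      field_simp
      linear_combination (-1 : K) * algebraMap A K a * h1
    have hb1 : pv (some v) (algebraMap A K b') = 1 :=
      pv_unit (by rw [hP, Ideal.mem_span_singleton]; exact hnd)
    rw [e, map_div₀, hb1, div_one]
    exact pv_int _ _
  · intro w' hw'
    rw [map_div₀, map_pow, pv_unit (gen_not_mem hw' hP), one_pow, div_one]
    exact pv_int _ _

lemma dense_one (v : Place) (x : Kv v) : ∃ y : K, val v (x - incl v y) ≤ 1 := by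
  have hopen : {z : Kv v | val v (x - z) ≤ 1} ∈ 𝓝 x := by
    have h1 : {z : Kv v | val v (z - x) < 1} ∈ 𝓝 x := by
      rw [Valued.mem_nhds]
      refine ⟨1, ?_⟩
      intro z hz
      simpa [val] using hz
    refine Filter.mem_of_superset h1 ?_
    intro z hz
    simp only [Set.mem_ofPred_eq] at hz ⊢
    rw [Valuation.map_sub_swap]
    exact hz.le
  have hd : DenseRange (incl v) := by
    have h0 := UniformSpace.Completion.denseRange_coe (α := WithVal (pv v))
    have h2 : Set.range (incl v) = Set.range (fun z : WithVal (pv v) => (z : Kv v)) := by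
      ext z
      constructor
      · rintro ⟨y, rfl⟩
        exact ⟨(WithVal.equiv (pv v)).symm y, rfl⟩
      · rintro ⟨y, rfl⟩
        exact ⟨WithVal.equiv (pv v) y, rfl⟩
    intro z
    rw [h2]
    exact h0 z
  obtain ⟨z, hz, y, rfl⟩ := mem_closure_iff_nhds.1 (hd x) _ hopen
  exact ⟨y, hz⟩

/-- Claim A: approximation at one finite place, integrality at the others. -/
lemma approx (v : HeightOneSpectrum A) (x : Kv (some v)) : ∃ y : K,
    val (some v) (x - incl (some v) y) ≤ 1 ∧
    ∀ w : HeightOneSpectrum A, w ≠ v → pv (some w) y ≤ 1 := by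
  obtain ⟨y₀, hy₀⟩ := dense_one (some v) x
  obtain ⟨y, hy, hw⟩ := approxK v y₀
  refine ⟨y, ?_, hw⟩
  have e : x - incl (some v) y = (x - incl (some v) y₀) + incl (some v) (y₀ - y) := by
    rw [map_sub]; ring
  rw [e]
  refine (Valuation.map_add _ _ _).trans (max_le hy₀ ?_)
  rw [val_incl]; exact hy

lemma glIncl_mem {w : Place} {γ : GL (Fin 2) K} (h : γ ∈ glInt (pv w)) : glIncl w γ ∈ Cv w := by
  refine ⟨fun i j => ?_, fun i j => ?_⟩
  · have := h.1 i j
    rw [← val_incl] at this
    exact this
  · have := h.2 i j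
    rw [← val_incl] at this
    rw [← map_inv]
    exact this

/-- One step: make the component at `v` integral, without destroying integrality elsewhere. -/
lemma step (v : HeightOneSpectrum A) (h : Gv (some v)) : ∃ γ : GL (Fin 2) K,
    glIncl (some v) γ * h ∈ Cv (some v) ∧
    ∀ w : HeightOneSpectrum A, w ≠ v → glIncl (some w) γ ∈ Cv (some w) := by
  obtain ⟨k, hk, hk0⟩ := iwasawa (val (some v)) h
  set h' := h * k with hh'
  suffices hs : ∃ γ : GL (Fin 2) K, glIncl (some v) γ * h' ∈ Cv (some v) ∧
      ∀ w : HeightOneSpectrum A, w ≠ v → glIncl (some w) γ ∈ Cv (some w) by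
    obtain ⟨γ, hγ, hw⟩ := hs
    refine ⟨γ, ?_, hw⟩
    have e : glIncl (some v) γ * h = (glIncl (some v) γ * h') * k⁻¹ := by
      rw [hh']; group
    rw [e]
    exact mul_mem hγ (inv_mem hk)
  clear_value h'
  clear hh' hk k h
  obtain ⟨P, hP, hirr⟩ := exists_gen v
  have hPK : algebraMap A K P ≠ 0 := by
    simpa using hirr.ne_zero
  have hPv : pv (some v) (algebraMap A K P) = WithZero.exp (-1) := by
    change v.valuation K _ = _
    rw [HeightOneSpectrum.valuation_of_algebraMap]
    exact v.intValuation_singleton hirr.ne_zero hP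
  have hdet : h'.val 0 0 * h'.val 1 1 ≠ 0 := by
    have h1 : h'.val.det ≠ 0 := (Matrix.isUnits_det_units h').ne_zero
    rw [Matrix.det_fin_two, hk0, mul_zero, sub_zero] at h1
    exact h1
  have ha : h'.val 0 0 ≠ 0 := left_ne_zero_of_mul hdet
  have hd : h'.val 1 1 ≠ 0 := right_ne_zero_of_mul hdet
  have hlog : ∀ a : Kv (some v), a ≠ 0 → ∃ i : ℤ,
      val (some v) (incl (some v) (algebraMap A K P ^ i) * a) = 1 := by
    intro a ha
    have hva : val (some v) a ≠ 0 := by simpa using ha
    refine ⟨WithZero.log (val (some v) a), ?_⟩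
    rw [map_mul, val_incl, map_zpow₀, hPv]
    conv_lhs => rw [← WithZero.exp_log hva]
    rw [← WithZero.exp_zsmul, ← WithZero.exp_add, WithZero.log_exp]
    simp
  obtain ⟨i, hi⟩ := hlog _ ha
  obtain ⟨j, hj⟩ := hlog _ hd
  set Pi : Kˣ := (Units.mk0 _ hPK) ^ i with hPi
  set Pj : Kˣ := (Units.mk0 _ hPK) ^ j with hPj
  have hPiv : (Pi : K) = algebraMap A K P ^ i := by rw [hPi, Units.val_zpow_eq_zpow_val]; rfl
  have hPjv : (Pj : K) = algebraMap A K P ^ j := by rw [hPj, Units.val_zpow_eq_zpow_val]; rfl
  obtain ⟨y, hy, hyw⟩ := approx v (incl (some v) Pi * h'.val 0 1 / (incl (some v) Pj * h'.val 1 1))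
  refine ⟨upr (-y) * dg Pi Pj, ?_, ?_⟩
  · have e : (glIncl (some v) (upr (-y) * dg Pi Pj) * h').val =
        !![incl (some v) Pi * h'.val 0 0,
          incl (some v) Pi * h'.val 0 1 - incl (some v) y * (incl (some v) Pj * h'.val 1 1);
          0, incl (some v) Pj * h'.val 1 1] := by
      ext a b
      simp only [Units.val_mul, map_mul, Matrix.mul_apply, Fin.sum_univ_two]
      fin_cases a <;> fin_cases b <;> simp [upr, dg, bor, hk0] <;> ring
    rw [← hPiv] at hi
    rw [← hPjv] at hj
    have hne : incl (some v) Pj * h'.val 1 1 ≠ 0 := by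
      intro h0; rw [h0, map_zero] at hj; exact zero_ne_one hj
    have hent : val (some v) (incl (some v) Pi * h'.val 0 1 -
        incl (some v) y * (incl (some v) Pj * h'.val 1 1)) ≤ 1 := by
      have e2 : incl (some v) Pi * h'.val 0 1 - incl (some v) y * (incl (some v) Pj * h'.val 1 1) =
          (incl (some v) Pi * h'.val 0 1 / (incl (some v) Pj * h'.val 1 1) - incl (some v) y) *
            (incl (some v) Pj * h'.val 1 1) := by
        rw [sub_mul, div_mul_cancel₀ _ hne]
      rw [e2, map_mul, hj, mul_one]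
      exact hy
    apply mem_glInt_of
    · intro a b
      rw [e]
      fin_cases a <;> fin_cases b
      · exact hi.le
      · exact hent
      · simp
      · exact hj.le
    · rw [e, Matrix.det_fin_two]
      simp only [Matrix.of_apply, Matrix.cons_val', Matrix.cons_val_zero, Matrix.cons_val_one,
        Matrix.cons_val_fin_one, Fin.isValue, mul_zero, sub_zero]
      rw [map_mul, hi, hj, one_mul]
  · intro w hw
    have hPw : pv (some w) (algebraMap A K P) = 1 := pv_unit (gen_not_mem hw hP)
    apply glIncl_mem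
    refine mul_mem (upr_mem _ ?_) (dg_mem _ ?_ ?_)
    · rw [Valuation.map_neg]; exact hyw w hw
    · rw [hPiv, map_zpow₀, hPw, one_zpow]
    · rw [hPjv, map_zpow₀, hPw, one_zpow]

end ClassAux

open ClassAux in
theorem TaskClass_proof : TaskClass := by
  have key : ∀ n : ℕ, ∀ g : GA, ({v : HeightOneSpectrum A | g (some v) ∉ Cv (some v)}).ncard = n →
      ∃ γ : GL (Fin 2) K, ∀ v : HeightOneSpectrum A, (diag γ * g) (some v) ∈ Cv (some v) := by
    intro n
    induction n using Nat.strong_induction_on with
    | _ n ih =>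
      intro g hg
      have hfin : ({v : HeightOneSpectrum A | g (some v) ∉ Cv (some v)}).Finite := by
        have h1 : {v : Place | ¬ (g v ∈ Cv v)}.Finite := by
          exact Filter.eventually_cofinite.1 g.2
        exact Set.Finite.preimage (Option.some_injective _).injOn h1
      by_cases hemp : {v : HeightOneSpectrum A | g (some v) ∉ Cv (some v)} = ∅
      · refine ⟨1, fun v => ?_⟩
        rw [map_one, one_mul]
        by_contra hv
        have : v ∈ ({v : HeightOneSpectrum A | g (some v) ∉ Cv (some v)}) := hv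
        rw [hemp] at this
        exact this
      · obtain ⟨v, hv⟩ := Set.nonempty_iff_ne_empty.2 hemp
        obtain ⟨γ, hγ, hw⟩ := step v (g (some v))
        have hsub : {u : HeightOneSpectrum A | (diag γ * g) (some u) ∉ Cv (some u)} ⊂
            {u : HeightOneSpectrum A | g (some u) ∉ Cv (some u)} := by
          rw [Set.ssubset_iff_of_subset]
          · refine ⟨v, hv, ?_⟩
            intro h
            apply h
            rw [RestrictedProduct.mul_apply, diag_apply]
            exact hγ
          · intro u hu hgu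
            apply hu
            rw [RestrictedProduct.mul_apply, diag_apply]
            by_cases huv : u = v
            · subst huv; exact hγ
            · exact mul_mem (hw u huv) hgu
        have hlt := Set.ncard_lt_ncard hsub hfin
        rw [hg] at hlt
        obtain ⟨δ, hδ⟩ := ih _ hlt (diag γ * g) rfl
        refine ⟨δ * γ, fun u => ?_⟩
        rw [map_mul, mul_assoc]
        exact hδ u
  intro g
  exact key _ g rfl

end N589LL

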